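import Pool.Agent.Q289.LV.Fin
import Pool.Agent.Q63.LV.Hit
import Pool.Agent.Q63.LV.Rev
import Pool.Agent.Q63.LV.Conc
import Pool.Agent.Q63.LV.Slow
import Pool.Agent.Q63.LV.CaseA
import Pool.Agent.Q63.LV.B1
import Pool.Agent.Q63.LV.Int
import Pool.Agent.Q2.LV.Car
import Pool.Agent.Q2.LV.B2
import Pool.Agent.Q2.LV.EnvOk
import Pool.Agent.Q2.LV.Bc
import Pool.Agent.Q182.LV.Split
import Pool.Agent.Q182.LV.Calc
import Pool.Agent.Q182.LV.Eq
import Pool.Agent.Q182.LV.Ar
import Pool.Agent.Q182.LV.B3
import Pool.Agent.Q182.LV.B4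

/-!
# Symmetric quasi-periodic walks over a Liouville rotation (MP_545af4_pr)

For the Liouville number `α = ∑ 3^(-j!)` and EVERY smooth symmetric transition function `p` the
variance of the quasi-periodic walk satisfies `Var_x(Z_T) ≤ T^1.99` for almost every `x` and all
large `T`.  Hence the upper growth exponent of the variance is at most `1.99 < 2` and the set of
`p` for which it equals `2` almost everywhere is empty.

Proof. Let `q = 3^(n!)`.  For `q^1.01 ≤ T ≤ q^30` the potential is `q`-periodic up to `1/T`; it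
either has an oscillation `≥ 4 log T` and confines the walk, or the Varadhan–Carne bound gives a
deviation at most `T^0.6`.  For `q^30 ≤ T ≤ q'^1.01`, `q'` the next denominator, a law split at
distance `T^0.99` forces a linearly decreasing potential (an argument on the minimum of the slowly
varying slope, which uses that the starting point is typical) with small oscillation, and in
such a potential the hitting times are concentrated with an error `T^0.89`.
-/

open Filter MeasureTheory

namespace Pool.Agent.Results.MP_545af4_pr.NoQuadraticGrowth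

open Q289.LV

theorem result :
    -- `α` lies in `(0,1)`, is irrational and not Diophantine
    (0 < al ∧ al < 1) ∧ Irrational al ∧ ¬ Dio al ∧
    -- the variance bound, for every `p` of the class, and the exponent
    (∀ p : ℝ → ℝ, IsP p → ∀ᵐ x : ℝ,
      (∀ᶠ T : ℕ in atTop, vr (env p x) T ≤ (T : ℝ) ^ (1.99 : ℝ)) ∧
      expo (env p x) ≤ ((1.99 : ℝ) : EReal)) ∧
    -- the set of `p` with exponent `2` almost everywhere is empty (and the class is not), so it
    -- contains no dense set, whatever the topology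
    (∀ p : ℝ → ℝ, IsP p → ¬ ∀ᵐ x : ℝ, expo (env p x) = 2) ∧
    (∀ _ : TopologicalSpace {p : ℝ → ℝ // IsP p}, ¬ ∃ D : Set {p : ℝ → ℝ // IsP p},
      Dense D ∧ ∀ p ∈ D, ∀ᵐ x : ℝ, expo (env p.1 x) = 2) := by
  have hhit : S_Hit := Q63.LV.H.hit
  have hrev : S_Rev := Q63.LV.rev
  have hcar : S_Car := Q2.LV.Car.car
  have hconc : S_Conc := Q63.LV.conc
  have hslow : S_Slow := Q63.LV.slow hhit hrev
  have hsplit : S_Split := Q182.LV.split hhit
  have hcalc : S_Calc := Q182.LV.calcS
  have hbad : S_Bad := Q182.LV.bad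
  have heq : S_Eq := Q182.LV.eq
  have har : S_Ar := Q182.LV.ar
  have hA : S_CaseA := Q63.LV.caseA hhit hrev hcar
  have h1 : S_B1 := Q63.LV.b1 hhit hrev hcar hslow
  have h2 : S_B2 := Q2.LV.B2.b2 hcalc
  have h3 : S_B3 := Q182.LV.b3
  have h4 : S_B4 := Q182.LV.b4 hhit hrev hconc
  have hB : S_CaseB := caseB h1 h2 h3 h4
  have henv : S_Env := Q2.LV.EnvOk.env_ok heq har
  have hbc : S_BC := Q2.LV.Bc.bc henv hA hB hbad
  have hint : S_Int := Q63.LV.int hhit
  have hmain := main hhit hsplit hbc hint
  have hne : ∀ p : ℝ → ℝ, IsP p → ¬ ∀ᵐ x : ℝ, expo (env p x) = 2 := by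
    intro p hp hcon
    have h := hmain p hp
    have hf : ∀ᵐ x : ℝ, False := by
      filter_upwards [h, hcon] with x hx hx2
      exact expo_ne_two hhit (env_rng hp x) hx hx2
    obtain ⟨x, hx⟩ := hf.exists
    exact hx
  refine ⟨har.rng, har.irr, har.notDio, ?_, hne, ?_⟩
  · intro p hp
    filter_upwards [hmain p hp] with x hx
    exact ⟨hx, expo_le hhit (env_rng hp x) hx⟩
  · intro _ hD
    obtain ⟨D, hD1, hD2⟩ := hD
    have hn : Nonempty {p : ℝ → ℝ // IsP p} := ⟨⟨fun _ => 1 / 2, half_isP⟩⟩
    obtain ⟨p, hp⟩ := hD1.nonempty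
    exact hne p.1 p.2 (hD2 p hp)

end Pool.Agent.Results.MP_545af4_pr.NoQuadraticGrowth
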